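import Mathlib
import Pool.Agent.R34.Main
import Pool.Agent.R34.PlanarCycles

/-!
Subdividing an edge once need not raise the treewidth threshold `f`.

For a planar graph `H`, `f(H)` is the least integer such that every graph of treewidth at least
`f(H)` has `H` as a minor. We show that the rule `f(H') = f(H) + 1` for one subdivision of one edge
is false: for every `s ≥ 10 ^ 6` there is an `m` such that the planar graph `H` which consists of
`s` disjoint cycles of length four and `m` isolated vertices satisfies
`f(H) = |V(H)| = 4 * s + m`, and subdividing any edge of `H` once gives a graph `H'` with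
`f(H') = f(H)`.
-/

set_option autoImplicit false

namespace Pool.Agent.Results.MP_31fefb_co.SubdivideThreshold

open Pool.Agent.R34 Pool.Agent.TH507.Host

theorem result (s : ℕ) (hs : 1000000 ≤ s) :
    ∃ m : ℕ, Planar (cycles s m) ∧ Threshold (cycles s m) (4 * s + m) ∧
      ∀ u v, (cycles s m).Adj u v → Threshold (subdivide (cycles s m) u v) (4 * s + m) := by
  obtain ⟨m, h1, h2⟩ := exists_m s hs
  have h3 : ∀ (i : Fin s) (a : Fin 4), Threshold
      (subdivide (cycles s m) (Sum.inl (i, a)) (Sum.inl (i, a + 1))) (4 * s + m) := fun i a =>
    threshold_of (by omega) (forces_subdivide (by omega) h1 i a) h2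
      (fun j hj V _ G hG => by
        classical
        exact minor_of_subdivide (hj V G hG))
  refine ⟨m, planar_cycles s m, ?_, ?_⟩
  · refine threshold_of (by omega) ?_ h2 (fun _ hj => hj)
    intro V _ G hG
    classical
    exact minor_of_subdivide ((h3 ⟨0, by omega⟩ 0).1 V G hG)
  · rintro _ _ ⟨i, a, b, rfl, rfl, hab⟩
    have key : ∀ a b : Fin 4, (SimpleGraph.cycleGraph 4).Adj a b → b = a + 1 ∨ a = b + 1 := by
      decide
    rcases key a b hab with rfl | rfl
    · exact h3 i a
    · rw [subdivide_comm]
      exact h3 i b

end Pool.Agent.Results.MP_31fefb_co.SubdivideThreshold
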